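import Pool.Agent.Q33.Fam.Final
import Pool.Agent.Q33.Fam.X51A
import Pool.Agent.Q33.Fam.X51B
import Pool.Agent.Q33.Fam.W51

set_option autoImplicit false

namespace Pool.Agent.Results.MP_681c11_nt.FiftyOne

open Finset Pool.Agent.Q33.Fam

lemma ft0 (N : ℕ) : W51.ft 0 N = (((51 : ℤ) * N + 7) * w2 N : ℤ) := by
  unfold W51.ft
  push_cast
  rw [w2_fact]
  simp only [mul_zero, zero_add, pow_zero, Nat.factorial_zero, Nat.cast_one]
  rw [Nat.factorial_succ (2 * N)]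
  push_cast
  have h1 : (N.factorial : ℚ) ≠ 0 := by exact_mod_cast N.factorial_ne_zero
  have h2 : ((2 * N).factorial : ℚ) ≠ 0 := by exact_mod_cast Nat.factorial_ne_zero _
  have h3 : (2 * (N : ℚ) + 1) ≠ 0 := by positivity
  field_simp
  ring

lemma gt_eq (k M : ℕ) : W51.gt k M =
    (((-27) ^ (k + 1) * 96 : ℤ) : ℚ) * ((((k + M + 1 : ℕ) : ℤ) * cb (k + M + 1) : ℤ) : ℚ) *
      (((fp [k + 1, 3 * k + 3 * M + 3, 4 * k + 2 * M + 3, 2 * M] : ℕ) : ℚ) /
        ((fp [3 * k + 3, k + 2 * M + 1, 2 * k + M + 1, 2 * k + 2 * M + 2, M, M] : ℕ) : ℚ)) +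
    (((-27) ^ k * 288 : ℤ) : ℚ) * ((((k + M + 1 : ℕ) : ℤ) * cb (k + M + 1) : ℤ) : ℚ) *
      (((fp [k, 3 * k + 3 * M + 3, 4 * k + 2 * M + 2, 2 * M] : ℕ) : ℚ) /
        ((fp [3 * k + 1, k + 2 * M + 1, 2 * k + M + 1, 2 * k + 2 * M + 2, M, M] : ℕ) : ℚ)) := by
  unfold W51.gt
  push_cast
  rw [cb_fact]
  simp only [fp_cons, fp_nil]
  have e1 : 2 * k + 2 * M + 2 = 2 * (k + M + 1) := by ring
  rw [e1, Nat.factorial_succ k, Nat.factorial_succ (4 * k + 2 * M + 2), Nat.factorial_succ (3 * k + 2),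
    Nat.factorial_succ (3 * k + 1)]
  push_cast
  have h1 : ((k + M + 1).factorial : ℚ) ≠ 0 := by exact_mod_cast Nat.factorial_ne_zero _
  have h2 : ((2 * (k + M + 1)).factorial : ℚ) ≠ 0 := by exact_mod_cast Nat.factorial_ne_zero _
  have h3 : (M.factorial : ℚ) ≠ 0 := by exact_mod_cast Nat.factorial_ne_zero _
  have h4 : ((3 * k + 1).factorial : ℚ) ≠ 0 := by exact_mod_cast Nat.factorial_ne_zero _
  have h5 : ((2 * k + M + 1).factorial : ℚ) ≠ 0 := by exact_mod_cast Nat.factorial_ne_zero _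
  have h6 : ((k + 2 * M + 1).factorial : ℚ) ≠ 0 := by exact_mod_cast Nat.factorial_ne_zero _
  have h7 : ((k : ℚ) + 1) ≠ 0 := by positivity
  have h8 : (3 * (k : ℚ) + 1 + 1) ≠ 0 := by positivity
  have h9 : (3 * (k : ℚ) + 2 + 1) ≠ 0 := by positivity
  rw [pow_succ]
  field_simp
  ring

lemma gtQ (k M : ℕ) : Q 6 (((k + M + 1 : ℕ) : ℤ) * cb (k + M + 1)) (W51.gt k M) := by
  rw [gt_eq]
  obtain ⟨e, t, ht⟩ := X51A k M
  apply Q_add
  · apply Q_ratio ((-27) ^ (k + 1) * 96) _ _ e _ _ rfl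
    refine ⟨3 ^ e * t, ?_⟩
    have : ((2 ^ e * fp [k + 1, 3 * k + 3 * M + 3, 4 * k + 2 * M + 3, 2 * M] : ℕ) : ℤ) =
      ((fp [3 * k + 3, k + 2 * M + 1, 2 * k + M + 1, 2 * k + 2 * M + 2, M, M] * t : ℕ) : ℤ) := by rw [ht]
    push_cast at this
    have e6 : (6 : ℤ) ^ e = 3 ^ e * 2 ^ e := by rw [← mul_pow]; norm_num
    rw [e6, mul_assoc, this]
    ring
  · exact Q_ratio0 ((-27) ^ k * 288) _ _ (X51B k M) _ rfl

lemma hQ (n : ℕ) : Q 6 ((n : ℤ) * cb n) (((-1728 : ℤ) : ℚ) * (S 51 7 (-1728) w2 n : ℤ)) := by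
  rw [← tele1 (-1728) 51 7 w2 W51.ft W51.gt ?_ ?_ ft0 n]
  · apply Q_sum
    intro k hk
    have e : k + (n - 1 - k) + 1 = n := by omega
    have := gtQ k (n - 1 - k)
    rw [e] at this
    exact this
  · intro k M
    have := W51.Wgen k M
    push_cast
    exact this
  · intro k
    have := W51.Wb0 k
    push_cast
    exact this

lemma pos (n : ℕ) : 0 < (-1) ^ n * S 51 7 (-1728) w2 (n + 1) := by
  have := sign_alt 51 7 1728 w2 (by norm_num)
    (fun k => mul_pos (by positivity) (w2_pos k)) ?_ n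
  · exact this
  · intro k
    have h1 := w2_step k
    have h2 := w2_pos k
    push_cast
    have h4 : (51 * ((k : ℤ) + 1) + 7) * w2 (k + 1) ≤ (51 * ((k : ℤ) + 1) + 7) * (108 * w2 k) :=
      mul_le_mul_of_nonneg_left h1 (by positivity)
    have h3 : (0 : ℤ) ≤ k := by positivity
    nlinarith [mul_nonneg h3 h2.le]

/-- the numbers of the problem -/
noncomputable def a (n : ℕ) : ℚ :=
  (∑ k ∈ range n, (-1728) ^ (n - 1 - k) * (51 * (k : ℚ) + 7) * ((2 * k).choose k : ℚ) ^ 2 * ((3 * k).choose k : ℚ)) /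
    (n * (2 * n + 1) * ((2 * n).choose n : ℚ))

lemma a_eq (n : ℕ) : a n = ((S 51 7 (-1728) w2 n : ℤ) : ℚ) / ((1 * D n : ℤ) : ℚ) := by
  unfold a S D w2 cb
  push_cast
  rw [one_mul]
  congr 1
  apply sum_congr rfl
  intro k _
  ring

/-- For every `n ≥ 2`: if `2n+1` is not a power of 3 then `(-1)^(n-1) a n` is a positive integer; if `2n+1` is a
power of 3 then `3 a n` is an integer not divisible by 3. -/
theorem result : ∀ n : ℕ, 2 ≤ n →
    ((¬ ∃ m : ℕ, 2 * n + 1 = 3 ^ m) → ∃ z : ℕ, 0 < z ∧ (-1) ^ (n - 1) * a n = z) ∧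
    ((∃ m : ℕ, 2 * n + 1 = 3 ^ m) → ∃ z : ℤ, 3 * a n = z ∧ ¬ (3 : ℤ) ∣ z) := by
  intro n hn
  obtain ⟨V, hV⟩ := V2
  obtain ⟨h1, h2⟩ := final6 51 7 (-1728) (-864) (-576) w2 Y2 V 1 (by norm_num) (by norm_num) (by norm_num) (by norm_num)
    ⟨6, by norm_num⟩ (fun n _ => hQ n) w2_dvd (fun n h => hV n (by omega))
    ⟨1, by norm_num, by
      unfold D S w2 cb
      norm_num [sum_range_succ, Nat.choose]⟩ Y2_ne w2_Y Y2_h1 Y2_h2 n hn
  have hD := D_pos n (by omega)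
  rw [a_eq]
  constructor
  · intro h
    push Not at h
    obtain ⟨z, hz, hz2⟩ := rat_int _ _ (by omega) (h1 (Or.inl h))
    have hp := pos (n - 1)
    have e : n - 1 + 1 = n := by omega
    rw [e, hz2] at hp
    have hz3 : 0 < (-1) ^ (n - 1) * z := by
      by_contra hc
      push Not at hc
      have : (-1) ^ (n - 1) * (1 * D n * z) = D n * ((-1) ^ (n - 1) * z) := by ring
      rw [this] at hp
      nlinarith
    refine ⟨((-1) ^ (n - 1) * z).toNat, by omega, ?_⟩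
    rw [hz]
    have : ((((-1) ^ (n - 1) * z).toNat : ℕ) : ℤ) = (-1) ^ (n - 1) * z := Int.toNat_of_nonneg hz3.le
    have h5 : ((((((-1) ^ (n - 1) * z).toNat : ℕ) : ℤ)) : ℚ) = (((-1) ^ (n - 1) * z : ℤ) : ℚ) := by rw [this]
    push_cast at h5
    exact h5.symm
  · intro h
    obtain ⟨h3, h4⟩ := h2 h (by norm_num)
    exact rat_three _ _ 1 (by omega) h3 h4

end Pool.Agent.Results.MP_681c11_nt.FiftyOne
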